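import Pool.Agent.Helper61.BT.Goals

/-! BT, packet PRJ. -/

set_option autoImplicit false

namespace Pool.Agent.Helper90.BT

open Pool.Agent.Helper27.VF Pool.Agent.Helper38.VF Pool.Agent.Helper61.BT Filter Topology

universe u

variable {A : Type u} [Group A]

/-- right translation -/
noncomputable def R (h : A) (f : L2 A) : L2 A := ⟨fun a => f (a * h), by
  change Memℓp _ 2
  have hp : 0 < (2 : ENNReal).toReal := by norm_num
  rw [memℓp_gen_iff hp]
  have h1 := (memℓp_gen_iff hp).1 (lp.memℓp f)
  exact h1.comp_injective (mul_left_injective h)⟩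

theorem R_apply (h : A) (f : L2 A) (a : A) : R h f a = f (a * h) := rfl

theorem R_sub (h : A) (f g : L2 A) : R h (f - g) = R h f - R h g := by
  ext a; rfl

theorem R_inv (h : A) (f : L2 A) : R h (R h⁻¹ f) = f := by
  ext a
  rw [R_apply, R_apply, mul_inv_cancel_right]

theorem R_inner (h : A) (f g : L2 A) : inner ℝ (R h f) (R h g) = inner ℝ f g := by
  rw [lp.inner_eq_tsum, lp.inner_eq_tsum]
  exact (Equiv.mulRight h).tsum_eq (fun a => inner ℝ (f a) (g a))

theorem R_norm (h : A) (f : L2 A) : ‖R h f‖ = ‖f‖ := by
  have h1 := R_inner h f f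
  rw [real_inner_self_eq_norm_sq, real_inner_self_eq_norm_sq] at h1
  exact (sq_eq_sq₀ (norm_nonneg _) (norm_nonneg _)).1 h1

theorem R_cont (h : A) : Continuous (R h) := by
  have : Isometry (R h) := by
    refine Isometry.of_dist_eq fun f g => ?_
    rw [dist_eq_norm, dist_eq_norm, ← R_sub, R_norm]
  exact this.continuous

section act

variable [DistribMulAction A (L2 A)]

theorem smul_lin (hact : LeftAct A) (y : A) (c : ℝ) (v : L2 A) : y • (c • v) = c • (y • v) := by
  ext a
  rw [hact, lp.coeFn_smul, lp.coeFn_smul, Pi.smul_apply, Pi.smul_apply, hact]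

theorem R_smul (hact : LeftAct A) (h y : A) (v : L2 A) : R h (y • v) = y • R h v := by
  ext a
  rw [R_apply, hact, hact, R_apply, mul_assoc]

theorem Uv_add (o : Option A) (v w : L2 A) : Uv o (v + w) = Uv o v + Uv o w := by
  cases o with
  | none => rfl
  | some y => change v + w - y • (v + w) = (v - y • v) + (w - y • w); rw [smul_add]; abel

theorem Uv_smul (hact : LeftAct A) (o : Option A) (c : ℝ) (v : L2 A) :
    Uv o (c • v) = c • Uv o v := by
  cases o with
  | none => rfl
  | some y =>
    change c • v - y • (c • v) = c • (v - y • v)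
    rw [smul_lin hact, smul_sub]

theorem R_Uv (hact : LeftAct A) (h : A) (o : Option A) (v : L2 A) :
    R h (Uv o v) = Uv o (R h v) := by
  cases o with
  | none => rfl
  | some y =>
    change R h (v - y • v) = R h v - y • R h v
    rw [R_sub, R_smul hact]

/-- the submodule of the values -/
def V0 (hact : LeftAct A) (E : Subgroup A) (o : Option A) : Submodule ℝ (L2 A) where
  carrier := {z : L2 A | ∃ v : L2 A, (∀ e ∈ E, e • v = v) ∧ z = Uv o v}
  zero_mem' := ⟨0, fun e _ => smul_zero e, by
    cases o with
    | none => rfl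
    | some y => change (0 : L2 A) = 0 - y • 0; rw [smul_zero, sub_zero]⟩
  add_mem' := by
    rintro _ _ ⟨v, hv, rfl⟩ ⟨w, hw, rfl⟩
    exact ⟨v + w, fun e he => by rw [smul_add, hv e he, hw e he], (Uv_add o v w).symm⟩
  smul_mem' := by
    rintro c _ ⟨v, hv, rfl⟩
    exact ⟨c • v, fun e he => by rw [smul_lin hact, hv e he], (Uv_smul hact o c v).symm⟩

theorem R_mem (hact : LeftAct A) (E : Subgroup A) (o : Option A) (h : A) {z : L2 A}
    (hz : z ∈ (V0 hact E o).topologicalClosure) : R h z ∈ (V0 hact E o).topologicalClosure := by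
  rw [← SetLike.mem_coe, Submodule.topologicalClosure_coe] at hz ⊢
  refine map_mem_closure (R_cont h) hz ?_
  rintro _ ⟨v, hv, rfl⟩
  exact ⟨R h v, fun e he => by rw [← R_smul hact, hv e he], R_Uv hact h o v⟩

end act

/-- the indicator function of a finite set -/
noncomputable def ind (E : Set A) (hE : E.Finite) : L2 A := ⟨fun a => (open Classical in if a ∈ E then 1 else 0), by
  classical
  change Memℓp _ 2
  have hp : 0 < (2 : ENNReal).toReal := by norm_num
  rw [memℓp_gen_iff hp]
  refine summable_of_ne_finset_zero (s := hE.toFinset) ?_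
  intro a ha
  rw [Set.Finite.mem_toFinset] at ha
  simp [ha]⟩

theorem ind_apply (E : Set A) (hE : E.Finite) (a : A) :
    ind E hE a = (open Classical in if a ∈ E then 1 else 0) := rfl

theorem ind_nonneg (E : Set A) (hE : E.Finite) (a : A) : 0 ≤ ind E hE a := by
  rw [ind_apply]; split_ifs <;> norm_num

theorem ind_inner (E : Set A) (hE : E.Finite) :
    inner ℝ (ind E hE) (ind E hE) = (Nat.card E : ℝ) := by
  classical
  rw [lp.inner_eq_tsum, tsum_eq_sum (s := hE.toFinset)]
  · have h1 : ∀ a ∈ hE.toFinset, inner ℝ (ind E hE a) (ind E hE a) = (1 : ℝ) := by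
      intro a ha
      rw [Set.Finite.mem_toFinset] at ha
      rw [ind_apply, if_pos ha]
      simp
    rw [Finset.sum_congr rfl h1, Finset.sum_const, nsmul_eq_mul, mul_one, Nat.card_coe_set_eq,
      Set.ncard_eq_toFinset_card E hE]
  · intro a ha
    rw [Set.Finite.mem_toFinset] at ha
    rw [ind_apply, if_neg ha]
    simp

theorem prj : PrjStmt.{u} := by
  classical
  intro A _ _ hact E N o hE hN ho
  set V := (V0 hact E o).topologicalClosure with hV
  haveI : CompleteSpace V := (Submodule.isClosed_topologicalClosure _).completeSpace_coe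
  have hsym : ∀ f g : L2 A, inner ℝ (V.starProjection f) g = inner ℝ f (V.starProjection g) :=
    fun f g => Submodule.inner_starProjection_left_eq_right V f g
  have hmem : ∀ f, V.starProjection f ∈ V := fun f => Submodule.starProjection_apply_mem V f
  have hself : ∀ f ∈ V, V.starProjection f = f := fun f hf =>
    Submodule.starProjection_eq_self_iff.2 hf
  refine ⟨V.starProjection, hsym, fun f => hself _ (hmem f), ?_, ?_, ?_⟩
  · intro f
    have h0 : V.starProjection f ∈ ((V0 hact E o).topologicalClosure : Set (L2 A)) := hmem f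
    rw [Submodule.topologicalClosure_coe] at h0
    exact h0
  · intro h f f' hff a
    have hf' : f' = R h f := by ext b; exact hff b
    subst hf'
    have h1 : V.starProjection (R h f) = R h (V.starProjection f) := by
      refine Submodule.eq_starProjection_of_mem_of_inner_eq_zero (R_mem hact E o h (hmem f)) ?_
      intro w hw
      rw [← R_sub, ← R_inv h w, R_inner]
      exact Submodule.starProjection_inner_eq_zero _ _ (R_mem hact E o h⁻¹ hw)
    rw [h1, R_apply]
  · intro δ₁ hδ
    have hδ1 : δ₁ = lp.single 2 (1 : A) (1 : ℝ) := by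
      ext a
      rw [hδ, lp.single_apply]
      by_cases ha : a = 1
      · subst ha; rw [if_pos rfl, Pi.single_eq_same]
      · rw [if_neg ha, Pi.single_eq_of_ne ha]
    have hin : ∀ f : L2 A, inner ℝ f δ₁ = f 1 := by
      intro f
      rw [hδ1, lp.inner_single_right]
      simp
    set v : L2 A := ind (E : Set A) hE with hv
    have hve : ∀ e ∈ E, e • v = v := by
      intro e he
      ext a
      rw [hact, hv, ind_apply, ind_apply]
      have h1 : e⁻¹ * a ∈ (E : Set A) ↔ a ∈ (E : Set A) := by
        change e⁻¹ * a ∈ E ↔ a ∈ E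
        exact E.mul_mem_cancel_left (E.inv_mem he)
      simp only [h1]
    set z : L2 A := Uv o v with hz
    have hzV : z ∈ V := (V0 hact E o).le_topologicalClosure ⟨v, hve, rfl⟩
    have hv1 : v 1 = 1 := by
      rw [hv, ind_apply, if_pos (show (1 : A) ∈ (E : Set A) from E.one_mem)]
    have hcard : (Nat.card E : ℝ) ≤ N := by exact_mod_cast hN
    have hvv : inner ℝ v v = (Nat.card E : ℝ) := ind_inner _ hE
    have hz1 : z 1 = 1 := by
      rw [hz]
      cases o with
      | none => exact hv1
      | some y =>
        change (v - y • v) 1 = 1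
        rw [lp.coeFn_sub, Pi.sub_apply, hact, hv1, hv, ind_apply, if_neg, sub_zero]
        intro h
        have h2 : y⁻¹ * 1 ∈ E := h
        rw [mul_one] at h2
        exact ho y rfl (by simpa using E.inv_mem h2)
    have hzz : inner ℝ z z ≤ 2 * (N : ℝ) := by
      have hc0 : (0 : ℝ) ≤ (Nat.card E : ℝ) := Nat.cast_nonneg _
      rw [hz]
      cases o with
      | none => change inner ℝ v v ≤ _; rw [hvv]; linarith
      | some y =>
        change inner ℝ (v - y • v) (v - y • v) ≤ _
        have h1 : inner ℝ (y • v) (y • v) = inner ℝ v v := by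
          rw [lp.inner_eq_tsum, lp.inner_eq_tsum,
            ← (Equiv.mulLeft y⁻¹).tsum_eq (fun a => inner ℝ (v a) (v a))]
          refine tsum_congr fun a => ?_
          rw [hact]
          rfl
        have h2 : 0 ≤ inner ℝ v (y • v) := by
          rw [lp.inner_eq_tsum]
          refine tsum_nonneg fun a => ?_
          rw [hact]
          have h3 := ind_nonneg (E : Set A) hE a
          have h4 := ind_nonneg (E : Set A) hE (y⁻¹ * a)
          change 0 ≤ inner ℝ (ind (E : Set A) hE a) (ind (E : Set A) hE (y⁻¹ * a))
          rw [real_inner_eq_re_inner ℝ]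
          simp only [RCLike.inner_apply, conj_trivial, RCLike.re_to_real]
          positivity
        rw [inner_sub_sub_self, h1, hvv, real_inner_comm v (y • v)]
        linarith
    set w := V.starProjection δ₁ with hw
    have hww : w 1 = inner ℝ w w := by
      rw [← hin w]
      conv_lhs => rw [hw, ← hself _ (hmem δ₁), hsym, ← hw]
    have h1zw : inner ℝ z w = 1 := by
      rw [hw, ← hsym, hself z hzV, hin, hz1]
    have hCS := real_inner_mul_inner_self_le z w
    rw [h1zw] at hCS
    have hw0 : 0 ≤ inner ℝ w w := real_inner_self_nonneg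
    have h5 : 1 ≤ 2 * (N : ℝ) * w 1 := by
      rw [hww]
      nlinarith [mul_le_mul_of_nonneg_right hzz hw0]
    have hN1 : (1 : ℝ) ≤ N := by
      have h6 : 1 ≤ Nat.card E := by
        haveI : Finite E := hE
        exact Nat.card_pos
      have : 1 ≤ N := le_trans h6 hN
      exact_mod_cast this
    rw [div_le_iff₀ (by linarith)]
    linarith

end Pool.Agent.Helper90.BT
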